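import Pool.Agent.T2H46.PoonenMod

set_option autoImplicit false

/-!
# Poonen's strict form for lattices with a chain of modular coatoms

Let `A` be a separating finite union-closed family which is not a power set, and suppose that the
members of `A`, ordered by inclusion, form a lattice dual to `L`, where `L` has a maximal chain
`⊥ = m 0 ⋖ m 1 ⋖ ... ⋖ m k = ⊤` such that `m i` is a modular coatom of the interval `[⊥, m (i + 1)]`.
Then some element lies in strictly more than half of the members of `A`.

Such chains exist in dually semimodular (lower semimodular) lattices, in supersolvable lattices, in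
all left modular lattices (lattices with a maximal chain of left modular elements), and in the
lattices of the subgroups of solvable groups (a subnormal series with quotients of prime order).

Proof. Let `N = m (k - 1)` and let `J` be a minimal element not below `N`; it is join-irreducible. By
modularity `U = J ⊔ (U ⊓ N)` for all `U ≥ J`, so `U ↦ U ⊓ N` is injective on the elements above `J`,
and its values are not above `J`. So `J` lies below at most half of the elements, and equality forces
`L` to be the product of `[⊥, N]` and a chain with two elements; one concludes by induction.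
-/

namespace Pool.Agent.Results.MP_75f39d_co.ModularChain

/-- Let `A` be a separating finite union-closed family which is not a power set, whose inclusion
order is dual to a lattice `L` with a chain `⊥ = m 0 ⋖ m 1 ⋖ ... ⋖ m k = ⊤` such that
`(x ⊔ m i) ⊓ z = x ⊔ (m i ⊓ z)` for all `x ≤ z ≤ m (i + 1)`. Then some element of the universe lies
in strictly more than half of the members of `A`. -/
theorem result {α : Type*} [DecidableEq α] (A : Finset (Finset α))
    (hA : ∀ X ∈ A, ∀ Y ∈ A, X ∪ Y ∈ A)
    (hsep : ∀ x ∈ A.sup id, ∀ y ∈ A.sup id, x ≠ y →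
      ∃ S ∈ A, (x ∈ S ∧ y ∉ S) ∨ (y ∈ S ∧ x ∉ S))
    (hpow : A ≠ (A.sup id).powerset)
    (L : Type*) [Lattice L] [BoundedOrder L] (e : {X // X ∈ A} ≃o Lᵒᵈ)
    (k : ℕ) (m : ℕ → L) (h0 : m 0 = ⊥) (hk : m k = ⊤) (hcov : ∀ i < k, m i ⋖ m (i + 1))
    (hmod : ∀ i < k, ∀ x z : L, x ≤ z → z ≤ m (i + 1) → (x ⊔ m i) ⊓ z = x ⊔ (m i ⊓ z)) :
    ∃ x ∈ A.sup id, A.card < 2 * (A.filter (fun S => x ∈ S)).card := by
  have hfin : Finite L := Finite.of_equiv _ (e.toEquiv.trans OrderDual.ofDual)
  exact Pool.Agent.R636.FL.poonen_of_good A hA e
    (Pool.Agent.T2H46.PoonenMod.good_of_chain k m h0 hk hcov hmod)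
    ⟨_, (e.symm (OrderDual.toDual ⊥)).2⟩ hsep hpow

end Pool.Agent.Results.MP_75f39d_co.ModularChain
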