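import Pool.Agent.T2H46.PoonenSec

set_option autoImplicit false

/-!
# Poonen's strict form for sectionally complemented lattices

Let `A` be a separating finite union-closed family which is not a power set, and suppose that the
members of `A`, ordered by inclusion, form a lattice dual to `L`, where `L` has the following
property: if `j` is join-irreducible and `j ≤ x`, then `x = j ⊔ y` for some `y` which is not above
`j`. Then some element lies in strictly more than half of the members of `A`.

All sectionally complemented lattices have this property (every interval `[⊥, x]` is complemented;
take for `y` a complement of `j`), in particular all relatively complemented lattices (Poonen's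
theorem) and all geometric lattices.

Proof. The map `z ↦ j ⊔ z` maps the elements not above `j` onto those above `j`. So if no join-irreducible
element lies below less than half of the elements, then all these maps are injective. This
exchange property implies that a join-irreducible element is never below the join of other ones:
take a shortest relation `a ≤ b ⊔ c ⊔ ...`; then `a ⊔ c ⊔ ... = b ⊔ c ⊔ ...`, and injectivity for `c`
gives a shorter relation. Hence `L` is the lattice of all subsets of the set of its join-irreducible
elements, and `A` is a power set.
-/

namespace Pool.Agent.Results.MP_75f39d_co.SectionallyComplemented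

/-- Let `A` be a separating finite union-closed family which is not a power set, whose inclusion
order is dual to a lattice `L` such that for every join-irreducible `j` and every `x ≥ j` there is
some `y` not above `j` with `j ⊔ y = x`. Then some element of the universe lies in strictly more than
half of the members of `A`. -/
theorem result {α : Type*} [DecidableEq α] (A : Finset (Finset α))
    (hA : ∀ X ∈ A, ∀ Y ∈ A, X ∪ Y ∈ A)
    (hsep : ∀ x ∈ A.sup id, ∀ y ∈ A.sup id, x ≠ y →
      ∃ S ∈ A, (x ∈ S ∧ y ∉ S) ∨ (y ∈ S ∧ x ∉ S))
    (hpow : A ≠ (A.sup id).powerset)
    (L : Type*) [Lattice L] [OrderBot L] (e : {X // X ∈ A} ≃o Lᵒᵈ)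
    (hL : ∀ j x : L, SupIrred j → j ≤ x → ∃ y, ¬ j ≤ y ∧ j ⊔ y = x) :
    ∃ x ∈ A.sup id, A.card < 2 * (A.filter (fun S => x ∈ S)).card := by
  have hfin : Finite L := Finite.of_equiv _ (e.toEquiv.trans OrderDual.ofDual)
  exact Pool.Agent.R636.FL.poonen_of_good A hA e (Pool.Agent.T2H46.PoonenSec.good_needed hL)
    ⟨_, (e.symm (OrderDual.toDual ⊥)).2⟩ hsep hpow

end Pool.Agent.Results.MP_75f39d_co.SectionallyComplemented
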