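import Pool.Agent.T2H46.PoonenGrp

set_option autoImplicit false

/-!
# Poonen's strict form for the lattices of the subgroups of finite groups

Let `A` be a separating finite union-closed family which is not a power set, whose inclusion order is
dual to the lattice of all subgroups of a finite group `G`, every nonabelian simple quotient of which
is generated by two elements of prime power order (no condition for solvable groups, symmetric
groups, ...; by the classification of the finite simple groups all finite groups have this
property). Then some element lies in strictly more than half of the members of `A`. Equivalently:
unless `G` is cyclic of squarefree order, some cyclic subgroup of prime power order is contained in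
strictly less than half of the subgroups of `G`.

Proof. Let `N` be a maximal normal subgroup. If `G / N` is not abelian, it is generated by two
join-irreducible subgroups, which lift to join-irreducible subgroups `J`, `K` of `G`. A subgroup
`U` containing `J` and `K` is generated by `J`, `K` and `U ∩ N`; so at most as many subgroups contain
both as contain neither, and even fewer, since some subgroup outside `N` contains neither (otherwise
`G / N` would be the union of two centralisers). If `G / N` has prime order, a minimal subgroup `J`
outside `N` lies in at most half of the subgroups, and equality forces `J` to be normal and the
lattice to be the product of a chain with two elements and the lattice of the subgroups of `G / J`.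
-/

namespace Pool.Agent.Results.MP_75f39d_co.SubgroupLattices

universe u v

/-- Let `G` be a finite group such that every nonabelian simple homomorphic image of `G` is generated
by two elements of prime power order. If the inclusion order of a separating finite union-closed
family `A`, not a power set, is dual to the lattice of the subgroups of `G`, then some element of the
universe lies in strictly more than half of the members of `A`. -/
theorem result (G : Type u) [Group G] [Finite G]
    (hG : ∀ (S : Type u) [Group S] (f : G →* S), Function.Surjective f → IsSimpleGroup S →
      (∃ a b : S, a * b ≠ b * a) →
      ∃ a b : S, IsPrimePow (orderOf a) ∧ IsPrimePow (orderOf b) ∧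
        Subgroup.closure {a, b} = ⊤)
    (α : Type v) [DecidableEq α] (A : Finset (Finset α))
    (e : {X // X ∈ A} ≃o (Subgroup G)ᵒᵈ)
    (hA : ∀ X ∈ A, ∀ Y ∈ A, X ∪ Y ∈ A)
    (hsep : ∀ x ∈ A.sup id, ∀ y ∈ A.sup id, x ≠ y →
      ∃ S ∈ A, (x ∈ S ∧ y ∉ S) ∨ (y ∈ S ∧ x ∉ S))
    (hpow : A ≠ (A.sup id).powerset) :
    ∃ x ∈ A.sup id, A.card < 2 * (A.filter (fun S => x ∈ S)).card :=
  Pool.Agent.R636.FL.poonen_of_good A hA e (Pool.Agent.T2H46.PoonenGrp.good_group G hG)
    ⟨_, (e.symm (OrderDual.toDual ⊥)).2⟩ hsep hpow

end Pool.Agent.Results.MP_75f39d_co.SubgroupLattices
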