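import Pool.Agent.R636.FFam
import Pool.Agent.T2H83.PS.Mon

set_option autoImplicit false

/-!
# Poonen's strict form for the lattices of submonoids and of subsemigroups

Let `A` be a separating finite union-closed family which is not a power set, and whose inclusion
order is dual to the lattice of all submonoids of a finite monoid `M`, or to the lattice of all
subsemigroups (the empty one included) of a finite semigroup `S`. Then some element lies in strictly
more than half of the members of `A`. The only condition: every nonabelian simple quotient of every
group contained in `M` (in `S`) is generated by two elements of prime power order; this is empty if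
the groups in `S` are solvable (bands, nilpotent and aperiodic semigroups, commutative semigroups,
...), it holds for instance when all of them are symmetric groups or direct products of such groups,
and for all finite groups by the classification of the finite simple groups.

Proof. By induction we show: the lattice `L` of the subsemigroups of `S` has a join-irreducible
element below strictly less than half of the elements, or `L` has `2 ^ n` elements of which at most
`n` nonzero ones lie below at least half of the elements; this gives the claim. If some `a` is not a
product of two other elements, then `S \ {a}` is a subsemigroup, and either the first alternative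
holds or `L` is the product of a chain with two elements and the lattice of the subsemigroups of
`S \ {a}`. Otherwise a maximal J-class `J` is regular. If some `x` in `J` has `x * x` outside `J`, take
an inverse `y` of `x` and `f = x * y`; the subsemigroups `T` containing `x` and `y` inject, by
removing from `T` the R-class and the L-class of `f`, into those containing none of two
join-irreducible subsemigroups that generate `x` and `y`, and the empty one is not attained. If `J` is
a subsemigroup, let `e` be an idempotent in it, with maximal subgroup `H`. If `H` is not trivial,
let `N` be a maximal normal subgroup of `H`, and `K1`, `K2` join-irreducible subgroups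
which together with `N` generate `H`. A subsemigroup `T` containing `K1` and `K2` is recovered from `T`
without the R-class of `e`, or `T` without the L-class of `e`, or `T` without `H \ N`: the first
unless `T` meets `J` only in the R-class, the second unless it meets `J` only in the L-class, the last
otherwise. If `H` is trivial the same works with `K1 = K2 = {e}`, unless `J` is a single R-class or a
single L-class, when `e` is not a product of two other elements. For the submonoids of `M` one argues
in the same way with `e = 1`.
-/

namespace Pool.Agent.Results.MP_75f39d_co.SubmonoidLattices

universe u v

/-- Every nonabelian simple homomorphic image `Q` of every group `G` contained in `S` is generated by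
two elements of prime power order. -/
def SimpleSectionsGenerated (S : Type u) [Semigroup S] : Prop :=
  ∀ (G : Type u) [Group G] (φ : G →ₙ* S), Function.Injective φ →
    ∀ (Q : Type u) [Group Q] (f : G →* Q), Function.Surjective f → IsSimpleGroup Q →
      (∃ a b : Q, a * b ≠ b * a) →
      ∃ a b : Q, IsPrimePow (orderOf a) ∧ IsPrimePow (orderOf b) ∧ Subgroup.closure {a, b} = ⊤

/-- Poonen's strict inequality for all separating finite union-closed families, not power sets, whose
inclusion order is dual to `L`. -/
def PoonenFor (L : Type u) [PartialOrder L] : Prop :=
  ∀ (α : Type v) [DecidableEq α] (A : Finset (Finset α)),
    Nonempty ({X // X ∈ A} ≃o Lᵒᵈ) →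
    (∀ X ∈ A, ∀ Y ∈ A, X ∪ Y ∈ A) →
    (∀ x ∈ A.sup id, ∀ y ∈ A.sup id, x ≠ y → ∃ S ∈ A, (x ∈ S ∧ y ∉ S) ∨ (y ∈ S ∧ x ∉ S)) →
    A ≠ (A.sup id).powerset →
    ∃ x ∈ A.sup id, A.card < 2 * (A.filter (fun S => x ∈ S)).card

/-- Poonen's strict inequality holds for the families whose order is dual to the lattice of the
submonoids of a finite monoid, or to the lattice of the subsemigroups of a finite semigroup, provided
that the nonabelian simple quotients of the groups in the semigroup are generated by two elements of
prime power order. -/
theorem result :
    (∀ (M : Type u) [Monoid M] [Finite M], SimpleSectionsGenerated M →
      PoonenFor.{u, v} (Submonoid M)) ∧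
    (∀ (S : Type u) [Semigroup S] [Finite S], SimpleSectionsGenerated S →
      PoonenFor.{u, v} (Subsemigroup S)) := by
  refine ⟨?_, ?_⟩
  · intro M _ _ hM α _ A ⟨e⟩ hA hsep hpow
    exact Pool.Agent.R636.FL.poonen_of_good A hA e (Pool.Agent.T2H83.PS.good_monoid M hM)
      ⟨_, (e.symm (OrderDual.toDual ⊥)).2⟩ hsep hpow
  · intro S _ _ hS α _ A ⟨e⟩ hA hsep hpow
    exact Pool.Agent.R636.FL.poonen_of_good A hA e (Pool.Agent.T2H83.PS.good_semigroup S hS)
      ⟨_, (e.symm (OrderDual.toDual ⊥)).2⟩ hsep hpow

end Pool.Agent.Results.MP_75f39d_co.SubmonoidLattices
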